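import Pool.Agent.E8helper30.TD.Inst

set_option autoImplicit false

namespace Pool.Agent.E8helper30.TD

theorem ctr3 (h : S_LAT) : S_CTR 3 3 27 := by
  have := inst h 3 1 1 3 1 1 3 3
    [(0, 0), (1, 0), (0, 1)]
    (by norm_num) (by norm_num) (by norm_num) (by norm_num) (by decide +kernel)
  exact this

theorem ctr4 (h : S_LAT) : S_CTR 2 3 16 := by
  have := inst h 2 0 2 2 0 1 3 4
    [(0, 0), (0, 1), (1, 0), (-1, 1)]
    (by norm_num) (by norm_num) (by norm_num) (by norm_num) (by decide +kernel)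
  exact this

theorem ctr7 (h : S_LAT) : S_CTR 1 1 7 := by
  have := inst h 7 2 1 1 0 0 1 7
    [(0, 0), (1, 0), (0, -1), (1, -1), (-1, 1), (0, 1), (-1, 0)]
    (by norm_num) (by norm_num) (by norm_num) (by norm_num) (by decide +kernel)
  exact this

theorem ctr9 (h : S_LAT) : S_CTR 5 49 225 := by
  have := inst h 3 0 3 5 0 2 49 9
    [(0, 0), (0, 1), (0, -1), (1, 0), (1, 1), (1, -1), (-1, 0), (-1, 1), (-1, 2)]
    (by norm_num) (by norm_num) (by norm_num) (by norm_num) (by decide +kernel)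
  exact this

theorem ctr12 (h : S_LAT) : S_CTR 3 21 108 := by
  have := inst h 6 2 2 3 1 1 21 12
    [(0, 0), (0, 1), (1, 0), (1, 1), (2, 0), (0, -1), (-1, 2), (1, -1), (0, 2), (2, -1),
      (-1, 0), (-1, 1)]
    (by norm_num) (by norm_num) (by norm_num) (by norm_num) (by decide +kernel)
  exact this

theorem ctr13 (h : S_LAT) : S_CTR 1 3 13 := by
  have := inst h 13 3 1 1 0 0 3 13
    [(0, 0), (1, 0), (-1, -1), (0, -1), (1, -1), (2, -1), (-1, 2), (1, -2), (-2, 1), (-1,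
      1), (0, 1), (1, 1), (-1, 0)]
    (by norm_num) (by norm_num) (by norm_num) (by norm_num) (by decide +kernel)
  exact this

theorem ctr16 (h : S_LAT) : S_CTR 5 91 400 := by
  have := inst h 4 0 4 5 0 1 91 16
    [(0, 0), (0, 1), (0, 2), (0, -1), (1, 0), (1, 1), (1, -2), (1, -1), (2, 0), (-2, 1),
      (-2, 2), (2, -1), (-1, 0), (-1, 1), (-1, 2), (-1, -1)]
    (by norm_num) (by norm_num) (by norm_num) (by norm_num) (by decide +kernel)
  exact this

theorem ctr19 (h : S_LAT) : S_CTR 1 4 19 := by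
  have := inst h 19 7 1 1 0 0 4 19
    [(0, 0), (1, 0), (2, 0), (-2, 2), (-1, 2), (0, 2), (-1, -1), (0, -1), (1, -1), (2,
      -1), (-2, 1), (-1, 1), (0, 1), (1, 1), (0, -2), (1, -2), (2, -2), (-2, 0), (-1, 0)]
    (by norm_num) (by norm_num) (by norm_num) (by norm_num) (by decide +kernel)
  exact this

theorem ctr21 (h : S_LAT) : S_CTR 2 21 84 := by
  have := inst h 21 4 1 2 1 0 21 21
    [(0, 0), (1, 0), (2, 0), (-1, -1), (0, -1), (1, -1), (2, -1), (3, -1), (0, -2), (1,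
      -2), (2, -2), (-2, 2), (-1, 2), (0, 2), (1, 2), (-2, 1), (-1, 1), (0, 1), (1, 1),
      (2, 1), (-1, 0)]
    (by norm_num) (by norm_num) (by norm_num) (by norm_num) (by decide +kernel)
  exact this

theorem ctr27 (h : S_LAT) : S_CTR 3 57 243 := by
  have := inst h 9 3 3 3 1 1 57 27
    [(0, 0), (0, 1), (0, 2), (1, 0), (1, 1), (1, 2), (2, 0), (2, 1), (-1, -1), (3, 0), (0,
      -2), (0, -1), (-2, 3), (1, -2), (1, -1), (-1, 3), (2, -2), (2, -1), (0, 3), (3, -2),
      (3, -1), (-2, 0), (-2, 1), (-2, 2), (-1, 0), (-1, 1), (-1, 2)]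
    (by norm_num) (by norm_num) (by norm_num) (by norm_num) (by decide +kernel)
  exact this

theorem ctr31 (h : S_LAT) : S_CTR 1 7 31 := by
  have := inst h 31 5 1 1 0 0 7 31
    [(0, 0), (1, 0), (2, 0), (-2, -1), (-1, -1), (0, -1), (1, -1), (2, -1), (3, -1), (-1,
      -2), (0, -2), (1, -2), (2, -2), (3, -2), (-2, 3), (-1, 3), (1, -3), (2, -3), (-3,
      2), (-2, 2), (-1, 2), (0, 2), (1, 2), (-3, 1), (-2, 1), (-1, 1), (0, 1), (1, 1), (2,
      1), (-2, 0), (-1, 0)]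
    (by norm_num) (by norm_num) (by norm_num) (by norm_num) (by decide +kernel)
  exact this

theorem ctr37 (h : S_LAT) : S_CTR 1 9 37 := by
  have := inst h 37 10 1 1 0 0 9 37
    [(0, 0), (1, 0), (2, 0), (3, 0), (-3, 3), (-2, 3), (-1, 3), (0, 3), (-2, -1), (-1,
      -1), (0, -1), (1, -1), (2, -1), (3, -1), (-3, 2), (-2, 2), (-1, 2), (0, 2), (1, 2),
      (-1, -2), (0, -2), (1, -2), (2, -2), (3, -2), (-3, 1), (-2, 1), (-1, 1), (0, 1), (1,
      1), (2, 1), (0, -3), (1, -3), (2, -3), (3, -3), (-3, 0), (-2, 0), (-1, 0)]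
    (by norm_num) (by norm_num) (by norm_num) (by norm_num) (by decide +kernel)
  exact this

theorem ctr52 (h : S_LAT) : S_CTR 1 13 52 := by
  have := inst h 26 6 2 1 0 0 13 52
    [(0, 0), (0, 1), (1, 0), (1, 1), (2, 0), (2, 1), (3, 0), (-3, -1), (-2, -2), (-2, -1),
      (-1, -2), (-1, -1), (0, -2), (0, -1), (1, -2), (1, -1), (2, -2), (2, -1), (3, -2),
      (3, -1), (4, -2), (4, -1), (-3, 4), (-1, -3), (-2, 4), (0, -3), (-1, 4), (1, -3),
      (2, -4), (2, -3), (3, -4), (3, -3), (-4, 2), (-4, 3), (-3, 2), (-3, 3), (-2, 2),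
      (-2, 3), (-1, 2), (-1, 3), (0, 2), (0, 3), (1, 2), (1, 3), (2, 2), (-4, 1), (-3, 0),
      (-3, 1), (-2, 0), (-2, 1), (-1, 0), (-1, 1)]
    (by norm_num) (by norm_num) (by norm_num) (by norm_num) (by decide +kernel)
  exact this

theorem ctr1 (h : S_LAT) : S_CTR 1 0 1 := by
  have := inst h 1 0 1 1 0 0 0 1 [(0, 0)]
    (by norm_num) (by norm_num) (by norm_num) (by norm_num) (by decide +kernel)
  exact this

end Pool.Agent.E8helper30.TD
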