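import Pool.Agent.E8helper30.TD.Stm

set_option autoImplicit false

namespace Pool.Agent.E8helper30.TD

/-- decidable form of `InL` -/
def inLb (a b c x y : ℤ) : Bool := decide (y % c = 0) && decide ((x - b * (y / c)) % a = 0)

theorem inLb_iff {a b c x y : ℤ} (ha : 0 < a) (hc : 0 < c) : inLb a b c x y = true ↔ InL a b c x y := by
  unfold inLb InL
  simp only [Bool.and_eq_true, decide_eq_true_eq]
  constructor
  · rintro ⟨h1, h2⟩
    refine ⟨(x - b * (y / c)) / a, y / c, ?_, ?_⟩
    · have := Int.mul_ediv_add_emod (x - b * (y / c)) a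
      rw [h2] at this
      linarith
    · have := Int.mul_ediv_add_emod y c
      rw [h1] at this
      linarith
  · rintro ⟨m, n, rfl, rfl⟩
    have h1 : c * n / c = n := Int.mul_ediv_cancel_left n hc.ne'
    refine ⟨Int.mul_emod_right c n, ?_⟩
    rw [h1]
    have : a * m + b * n - b * n = a * m := by ring
    rw [this]
    exact Int.mul_emod_right a m

/-- all checks for one lattice -/
def chk (a b c M c₁ c₂ A Nm : ℤ) (tab : List (ℤ × ℤ)) : Bool :=
  ((List.range a.toNat).all fun i => (List.range c.toNat).all fun j =>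
    inLb a b c ((tab.getD (i * c.toNat + j) (0, 0)).1 - i) ((tab.getD (i * c.toNat + j) (0, 0)).2 - j) &&
    decide (N (M * (tab.getD (i * c.toNat + j) (0, 0)).1 - c₁)
      (M * (tab.getD (i * c.toNat + j) (0, 0)).2 - c₂) ≤ A)) &&
  ((List.range 19).all fun i => (List.range 19).all fun j =>
    !(inLb a b c ((i : ℤ) - 9) ((j : ℤ) - 9)) || (decide ((i : ℤ) - 9 = 0) && decide ((j : ℤ) - 9 = 0)) ||
      decide (Nm ≤ N ((i : ℤ) - 9) ((j : ℤ) - 9)))

theorem inst (hLAT : S_LAT) (a b c M c₁ c₂ A Nm : ℤ) (tab : List (ℤ × ℤ)) (ha : 0 < a) (hc : 0 < c)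
    (hM : 0 < M) (hNm : Nm ≤ 70) (h : chk a b c M c₁ c₂ A Nm tab = true) :
    S_CTR M A (M ^ 2 * Nm) := by
  unfold chk at h
  rw [Bool.and_eq_true] at h
  obtain ⟨h1, h2⟩ := h
  simp only [List.all_eq_true, List.mem_range] at h1 h2
  refine hLAT a b c M c₁ c₂ A Nm (fun i j => tab.getD (i.toNat * c.toNat + j.toNat) (0, 0)) ha hc hM
    ?_ ?_
  · intro i j hi hi' hj hj'
    have h3 := h1 i.toNat (by omega) j.toNat (by omega)
    rw [Bool.and_eq_true, decide_eq_true_eq, inLb_iff ha hc] at h3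
    have hi2 : ((i.toNat : ℕ) : ℤ) = i := Int.toNat_of_nonneg hi
    have hj2 : ((j.toNat : ℕ) : ℤ) = j := Int.toNat_of_nonneg hj
    rw [hi2, hj2] at h3
    exact h3
  · intro x y hxy
    by_contra hcon
    push Not at hcon
    obtain ⟨h3, h4⟩ := hcon
    have h5 : N x y ≤ 69 := by omega
    unfold N at h5
    have hx : -9 ≤ x ∧ x ≤ 9 := by
      constructor <;> nlinarith [sq_nonneg (x + 2 * y)]
    have hy : -9 ≤ y ∧ y ≤ 9 := by
      constructor <;> nlinarith [sq_nonneg (2 * x + y)]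
    have h6 := h2 (x + 9).toNat (by omega) (y + 9).toNat (by omega)
    have hx2 : (((x + 9).toNat : ℕ) : ℤ) = x + 9 := Int.toNat_of_nonneg (by omega)
    have hy2 : (((y + 9).toNat : ℕ) : ℤ) = y + 9 := Int.toNat_of_nonneg (by omega)
    rw [hx2, hy2] at h6
    simp only [add_sub_cancel_right] at h6
    rw [Bool.or_eq_true, Bool.or_eq_true] at h6
    rcases h6 with (h6 | h6) | h6
    · rw [Bool.not_eq_true'] at h6
      have := (inLb_iff ha hc).2 hxy
      rw [h6] at this; exact Bool.noConfusion this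
    · rw [Bool.and_eq_true, decide_eq_true_eq, decide_eq_true_eq] at h6
      exact h3 h6.1 h6.2
    · rw [decide_eq_true_eq] at h6
      omega

end Pool.Agent.E8helper30.TD
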