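import Pool.Agent.E8helper30.TD.Inst
import Pool.Agent.E8helper90.TD.LAT

set_option autoImplicit false

namespace Pool.Agent.E8helper30.TD

open Pool.Agent.E8helper90.TD

/-- centres from a lattice of centres (times `M`) that contains `M T` up to small vectors -/
theorem latq {a b c M c₁ c₂ A Nm : ℤ} (off : ℤ → ℤ → ℤ × ℤ) (ha : 0 < a) (hc : 0 < c)
    (hoff : ∀ i j : ℤ, 0 ≤ i → i < a → 0 ≤ j → j < c →
      InL a b c (M * i - (off i j).1 - c₁) (M * j - (off i j).2 - c₂) ∧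
      N (off i j).1 (off i j).2 ≤ A)
    (hmin : ∀ x y : ℤ, InL a b c x y → (x = 0 ∧ y = 0) ∨ Nm ≤ N x y) :
    S_CTR M A Nm := by
  have key : ∀ x y : ℤ, ∃ p : ℤ × ℤ, InL a b c (M * x - p.1 - c₁) (M * y - p.2 - c₂) ∧
      N p.1 p.2 ≤ A := by
    intro x y
    obtain ⟨h1, h2⟩ := hoff ((x - b * (y / c)) % a) (y % c) (Int.emod_nonneg _ ha.ne')
      (Int.emod_lt_of_pos _ ha) (Int.emod_nonneg _ hc.ne') (Int.emod_lt_of_pos _ hc)
    refine ⟨off ((x - b * (y / c)) % a) (y % c), ?_, h2⟩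
    obtain ⟨m, n, hm, hn⟩ := h1
    have h3 := Int.emod_add_mul_ediv (x - b * (y / c)) a
    have h4 := Int.emod_add_mul_ediv y c
    refine ⟨m + M * ((x - b * (y / c)) / a), n + M * (y / c), ?_, ?_⟩
    · linear_combination hm - M * h3
    · linear_combination hn - M * h4
  choose p hp1 hp2 using key
  refine ⟨fun x y => (M * x - (p x y).1, M * y - (p x y).2), fun x y => ?_, fun x y x' y' => ?_⟩
  · have e1 : M * x - (M * x - (p x y).1) = (p x y).1 := by ring
    have e2 : M * y - (M * y - (p x y).2) = (p x y).2 := by ring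
    simp only [e1, e2]
    exact hp2 x y
  · have h5 := inL_sub (hp1 x y) (hp1 x' y')
    have e1 : M * x - (p x y).1 - c₁ - (M * x' - (p x' y').1 - c₁) =
      M * x - (p x y).1 - (M * x' - (p x' y').1) := by ring
    have e2 : M * y - (p x y).2 - c₂ - (M * y' - (p x' y').2 - c₂) =
      M * y - (p x y).2 - (M * y' - (p x' y').2) := by ring
    rw [e1, e2] at h5
    rcases hmin _ _ h5 with ⟨h6, h7⟩ | h
    · left
      have e3 := sub_eq_zero.1 h6
      have e4 := sub_eq_zero.1 h7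
      simp only [e3, e4]
    · right
      exact h

/-- all checks for one lattice -/
def chkq (a b c M c₁ c₂ A Nm : ℤ) (tab : List (ℤ × ℤ)) : Bool :=
  ((List.range a.toNat).all fun i => (List.range c.toNat).all fun j =>
    inLb a b c (M * i - (tab.getD (i * c.toNat + j) (0, 0)).1 - c₁)
      (M * j - (tab.getD (i * c.toNat + j) (0, 0)).2 - c₂) &&
    decide (N (tab.getD (i * c.toNat + j) (0, 0)).1 (tab.getD (i * c.toNat + j) (0, 0)).2 ≤ A)) &&
  ((List.range 19).all fun i => (List.range 19).all fun j =>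
    !(inLb a b c ((i : ℤ) - 9) ((j : ℤ) - 9)) || (decide ((i : ℤ) - 9 = 0) && decide ((j : ℤ) - 9 = 0)) ||
      decide (Nm ≤ N ((i : ℤ) - 9) ((j : ℤ) - 9)))

theorem instq (a b c M c₁ c₂ A Nm : ℤ) (tab : List (ℤ × ℤ)) (ha : 0 < a) (hc : 0 < c)
    (hNm : Nm ≤ 70) (h : chkq a b c M c₁ c₂ A Nm tab = true) : S_CTR M A Nm := by
  unfold chkq at h
  rw [Bool.and_eq_true] at h
  obtain ⟨h1, h2⟩ := h
  simp only [List.all_eq_true, List.mem_range] at h1 h2
  refine latq (a := a) (b := b) (c := c) (c₁ := c₁) (c₂ := c₂)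
    (fun i j => tab.getD (i.toNat * c.toNat + j.toNat) (0, 0)) ha hc ?_ ?_
  · intro i j hi hi' hj hj'
    have h3 := h1 i.toNat (by omega) j.toNat (by omega)
    rw [Bool.and_eq_true, decide_eq_true_eq, inLb_iff ha hc] at h3
    have hi2 : ((i.toNat : ℕ) : ℤ) = i := Int.toNat_of_nonneg hi
    have hj2 : ((j.toNat : ℕ) : ℤ) = j := Int.toNat_of_nonneg hj
    rw [hi2, hj2] at h3
    exact h3
  · intro x y hxy
    by_contra hcon
    push Not at hcon
    obtain ⟨h3, h4⟩ := hcon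
    have h5 : N x y ≤ 69 := by omega
    unfold N at h5
    have hx : -9 ≤ x ∧ x ≤ 9 := by
      constructor <;> nlinarith [sq_nonneg (x + 2 * y)]
    have hy : -9 ≤ y ∧ y ≤ 9 := by
      constructor <;> nlinarith [sq_nonneg (2 * x + y)]
    have h6 := h2 (x + 9).toNat (by omega) (y + 9).toNat (by omega)
    have hx2 : (((x + 9).toNat : ℕ) : ℤ) = x + 9 := Int.toNat_of_nonneg (by omega)
    have hy2 : (((y + 9).toNat : ℕ) : ℤ) = y + 9 := Int.toNat_of_nonneg (by omega)
    rw [hx2, hy2] at h6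
    simp only [add_sub_cancel_right] at h6
    rw [Bool.or_eq_true, Bool.or_eq_true] at h6
    rcases h6 with (h6 | h6) | h6
    · rw [Bool.not_eq_true'] at h6
      have := (inLb_iff ha hc).2 hxy
      rw [h6] at this; exact Bool.noConfusion this
    · rw [Bool.and_eq_true, decide_eq_true_eq, decide_eq_true_eq] at h6
      exact h3 h6.1 h6.2
    · rw [decide_eq_true_eq] at h6
      omega

theorem ctrq31 : S_CTR 2 7 31 :=
  instq 31 5 1 2 0 0 7 31
    [(0, 0), (2, 0), (-1, -1), (1, -1), (3, -1), (0, -2), (2, -2), (-2, 3), (1, -3), (-3,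
      2), (-1, 2), (1, 2), (-2, 1), (0, 1), (2, 1), (-1, 0), (1, 0), (-2, -1), (0, -1),
      (2, -1), (-1, -2), (1, -2), (3, -2), (-1, 3), (2, -3), (-2, 2), (0, 2), (-3, 1),
      (-1, 1), (1, 1), (-2, 0)]
    (by norm_num) (by norm_num) (by norm_num) (by decide +kernel)

theorem ctrq37 : S_CTR 2 9 37 :=
  instq 37 10 1 2 1 0 9 37
    [(-1, 0), (1, 0), (3, 0), (-2, 3), (0, 3), (-1, -1), (1, -1), (3, -1), (-2, 2), (0,
      2), (-1, -2), (1, -2), (3, -2), (-2, 1), (0, 1), (2, 1), (1, -3), (3, -3), (-2, 0),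
      (0, 0), (2, 0), (-3, 3), (-1, 3), (-2, -1), (0, -1), (2, -1), (-3, 2), (-1, 2), (1,
      2), (0, -2), (2, -2), (-3, 1), (-1, 1), (1, 1), (0, -3), (2, -3), (-3, 0)]
    (by norm_num) (by norm_num) (by norm_num) (by decide +kernel)

end Pool.Agent.E8helper30.TD
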