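import Mathlib

/-!
# Project TD (helper30), MP_962d12_co: covering the triangular lattice by non-overlapping unit disks
-/

set_option autoImplicit false

namespace Pool.Agent.E8helper30.TD

/-- the sixth root of unity `e^{iπ/3}` -/
noncomputable def om : ℂ := Complex.exp (Complex.I * (Real.pi / 3))

/-- the triangular lattice with minimal distance `d` -/
def T (d : ℝ) : Set ℂ := {z | ∃ a b : ℤ, z = d * (a + b * om)}

/-- `T d` is covered by countably many unit disks with pairwise disjoint interiors -/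
def Coverable (d : ℝ) : Prop := ∃ S : Set ℂ, S.Countable ∧
  (∀ x ∈ S, ∀ y ∈ S, x ≠ y →
    Disjoint (interior (Metric.closedBall x 1)) (interior (Metric.closedBall y 1))) ∧
  T d ⊆ ⋃ x ∈ S, Metric.closedBall x 1

/-- the norm form of the lattice -/
def N (x y : ℤ) : ℤ := x ^ 2 + x * y + y ^ 2

/-- a choice of centres (in the basis `1, ω`, times `M`) -/
def S_CTR (M A B : ℤ) : Prop := ∃ ctr : ℤ → ℤ → ℤ × ℤ,
  (∀ a b, N (M * a - (ctr a b).1) (M * b - (ctr a b).2) ≤ A) ∧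
  ∀ a b a' b', ctr a b = ctr a' b' ∨
    B ≤ N ((ctr a b).1 - (ctr a' b').1) ((ctr a b).2 - (ctr a' b').2)

/-- from centres to coverings -/
def S_GEN : Prop := ∀ (M A B : ℤ) (d : ℝ), 0 < M → 0 < d → S_CTR M A B →
  A * d ^ 2 ≤ M ^ 2 → 4 * (M : ℝ) ^ 2 ≤ B * d ^ 2 → Coverable d

/-- membership in the lattice spanned by `(a, 0)` and `(b, c)` -/
def InL (a b c x y : ℤ) : Prop := ∃ m n : ℤ, x = a * m + b * n ∧ y = c * n

/-- centres from a lattice and representatives -/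
def S_LAT : Prop := ∀ (a b c M c₁ c₂ A Nm : ℤ) (rep : ℤ → ℤ → ℤ × ℤ), 0 < a → 0 < c → 0 < M →
  (∀ i j : ℤ, 0 ≤ i → i < a → 0 ≤ j → j < c →
    InL a b c ((rep i j).1 - i) ((rep i j).2 - j) ∧
    N (M * (rep i j).1 - c₁) (M * (rep i j).2 - c₂) ≤ A) →
  (∀ x y : ℤ, InL a b c x y → (x = 0 ∧ y = 0) ∨ Nm ≤ N x y) →
  S_CTR M A (M ^ 2 * Nm)

/-- the dimer covering -/
def S_DIM : Prop := S_CTR 2 1 7

/-- no covering for small `d` -/
def S_NEG : Prop := ∀ d : ℝ, 0 < d → d < 2 - √3 → ¬ Coverable d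

/-- covering radius: every closed disk of radius `d / √3` contains a lattice point -/
def S_RAD : Prop := ∀ (d : ℝ) (z : ℂ), 0 < d → ∃ p ∈ T d, ‖p - z‖ ≤ d / √3

/-- the hole of a packing -/
def S_HOLE : Prop := ∀ (s q : ℝ) (S : Set ℂ) (c₀ c₁ : ℂ), 1 < q → q < 2 / √3 → 2 ≤ s → s ≤ 2 * q →
  (∀ x ∈ S, ∀ y ∈ S, x ≠ y → 2 ≤ ‖x - y‖) → c₀ ∈ S → c₁ ∈ S → ‖c₁ - c₀‖ = s →
  ∃ z : ℂ, ∀ c ∈ S, q < ‖z - c‖

end Pool.Agent.E8helper30.TD
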